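import Pool.Agent.N627.ND.Stm

/-!
# Project ND: sparse distance relations
-/

set_option autoImplicit false

namespace Pool.Agent.N2.ND

open Pool.Agent.N627.ND

variable {V : Type}

lemma ex_mono {μ : ℕ → ℕ} {G G' : SimpleGraph V} (hle : G' ≤ G) (h : Ex μ G) : Ex μ G' := by
  intro R hL
  obtain ⟨v, P, h1, h2⟩ := hL
  exact h R ⟨v, P, fun i j hij => ⟨(h1 i j hij).1, (h1 i j hij).2.1, fun a ha =>
    ((h1 i j hij).2.2 a ha).imp id (fun h => hle h)⟩, h2⟩

lemma del_ball_le (G : SimpleGraph V) (c : V) (R : ℕ) {s : ℕ} (w : Fin s → V) :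
    del (ball G c R) w ≤ G := fun _ _ h => h.1.1

lemma sp_empty {A B : Type} [IsEmpty A] [IsEmpty B] (t : ℝ) (_ : 0 ≤ t) (X : A → B → Prop) :
    SpP t X := by
  refine ⟨Fin 0, inferInstance, fun a => isEmptyElim a, fun _ b => isEmptyElim b, ?_, ?_, ?_⟩
  · intro a; exact isEmptyElim a
  · intro b; exact isEmptyElim b
  · intro a; exact isEmptyElim a

lemma sp_congr {A B : Type} {t : ℝ} {X Y : A → B → Prop} (h : ∀ a b, X a b ↔ Y a b)
    (hX : SpP t X) : SpP t Y := by
  have : X = Y := by
    funext a b
    exact propext (h a b)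
  rw [← this]; exact hX

theorem di (hG : S_G) (hDD : S_DD) (hBD : S_BD) (hSR : S_SR) (hSB : S_SB) (hSC : S_SC) :
    S_DI := by
  classical
  intro μ R s l E hER
  induction l with
  | zero =>
    intro ε hε
    refine ⟨1, ?_⟩
    intro V _ G hEx hRk A B _ _ x y e he
    have hG0 : G = ⊥ := hRk
    rcases isEmpty_or_nonempty A with hA | hA
    · rcases isEmpty_or_nonempty B with hB | hB
      · exact sp_empty _ (by positivity) _
      · refine hSR.2.2.2 A B _ 1 _ ?_ (sp_congr ?_ (hSR.2.2.1 A B V x y))
        · rw [one_mul]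
          apply Real.one_le_rpow _ hε.le
          have : (1 : ℝ) ≤ (Fintype.card B : ℝ) := by exact_mod_cast Fintype.card_pos
          have h2 : (0 : ℝ) ≤ (Fintype.card A : ℝ) := by positivity
          linarith
        · intro a; exact isEmptyElim a
    · refine hSR.2.2.2 A B _ 1 _ ?_ (sp_congr ?_ (hSR.2.2.1 A B V x y))
      · rw [one_mul]
        apply Real.one_le_rpow _ hε.le
        have : (1 : ℝ) ≤ (Fintype.card A : ℝ) := by exact_mod_cast Fintype.card_pos
        have h2 : (0 : ℝ) ≤ (Fintype.card B : ℝ) := by positivity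
        linarith
      · intro a b
        rw [hG0]
        constructor
        · intro h
          rw [h]; simp
        · intro h
          by_contra hne
          rw [SimpleGraph.edist_bot_of_ne hne] at h
          exact absurd h (by simp)
  | succ l ih =>
    intro ε hε
    set m : ℕ := Fintype.card (Option (Bool × Fin s × Fin (E + 1))) with hm
    set ε' : ℝ := ε / (m + 1) with hε'
    have hm1 : (0 : ℝ) < (m : ℝ) + 1 := by positivity
    have hε'0 : 0 < ε' := div_pos hε hm1
    obtain ⟨C1, hC1⟩ := ih ε' hε'0
    obtain ⟨C2, hC2⟩ := hG μ E ε' hε'0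
    refine ⟨max C2 1 * (2 * (1 + max C1 1)) ^ m, ?_⟩
    intro V _ G hEx hRk A B _ _ x y e he
    by_cases hemp : IsEmpty A ∧ IsEmpty B
    · obtain ⟨hA, hB⟩ := hemp
      exact sp_empty _ (by positivity) _
    set n : ℝ := (Fintype.card A : ℝ) + (Fintype.card B : ℝ) with hn
    have hn1 : 1 ≤ n := by
      have h0 : 1 ≤ Fintype.card A + Fintype.card B := by
        by_contra hlt
        apply hemp
        constructor
        · exact Fintype.card_eq_zero_iff.1 (by omega)
        · exact Fintype.card_eq_zero_iff.1 (by omega)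
      rw [hn]
      exact_mod_cast h0
    have hnε : 1 ≤ n ^ ε' := Real.one_le_rpow hn1 hε'0.le
    -- the cover
    set W : Finset V := Finset.univ.image x ∪ Finset.univ.image y with hW
    have hxW : ∀ a, x a ∈ W := fun a => by
      rw [hW]; exact Finset.mem_union_left _ (Finset.mem_image_of_mem _ (Finset.mem_univ _))
    have hyW : ∀ b, y b ∈ W := fun b => by
      rw [hW]; exact Finset.mem_union_right _ (Finset.mem_image_of_mem _ (Finset.mem_univ _))
    have hWn : (W.card : ℝ) ≤ n := by
      have h1 : W.card ≤ Fintype.card A + Fintype.card B := by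
        refine (Finset.card_union_le _ _).trans ?_
        exact Nat.add_le_add Finset.card_image_le Finset.card_image_le
      rw [hn]
      exact_mod_cast h1
    obtain ⟨c, Z, hc, hcZ, hZ⟩ := hC2 V G hEx W
    -- the rounds of the game
    choose w hw using hRk
    set s' : ℝ := max C1 1 * n ^ ε' with hs'
    have hs'1 : 1 ≤ s' := by
      have h1 : (1 : ℝ) ≤ max C1 1 := le_max_right _ _
      nlinarith
    have hs'0 : 0 ≤ s' := by linarith
    have hY : ∀ v, SpP ((2 * (1 + s')) ^ m) (fun a b => (ball G v R).edist (x a) (y b) ≤ e) := by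
      intro v
      have hSB' := hSB A B (Option (Bool × Fin s × Fin (E + 1))) s'
        (fun i a b => match i with
          | none => (del (ball G v R) (w v)).edist (x a) (y b) ≤ e
          | some (true, j, k) => (ball G v R).edist (x a) (w v j) ≤ ((k : ℕ) : ℕ∞)
          | some (false, j, k) => (ball G v R).edist (y b) (w v j) ≤ ((k : ℕ) : ℕ∞))
        (fun a b => (ball G v R).edist (x a) (y b) ≤ e) hs'0 ?_ ?_
      · exact hSB'
      · rintro (_ | ⟨_ | _, j, k⟩)
        · have := hC1 V (del (ball G v R) (w v)) (ex_mono (del_ball_le G v R (w v)) hEx) (hw v)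
            A B x y e he
          refine hSR.2.2.2 A B _ _ _ ?_ this
          rw [hs']
          exact mul_le_mul_of_nonneg_right (le_max_left _ _) (by linarith)
        · exact hSR.2.2.2 A B _ _ _ hs'1 (hSR.2.1 A B _)
        · exact hSR.2.2.2 A B _ _ _ hs'1 (hSR.1 A B _)
      · have key : ∀ a b a' b',
            (∀ i : Option (Bool × Fin s × Fin (E + 1)), (match i with
              | none => (del (ball G v R) (w v)).edist (x a) (y b) ≤ e
              | some (true, j, k) => (ball G v R).edist (x a) (w v j) ≤ ((k : ℕ) : ℕ∞)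
              | some (false, j, k) => (ball G v R).edist (y b) (w v j) ≤ ((k : ℕ) : ℕ∞)) ↔
              (match i with
              | none => (del (ball G v R) (w v)).edist (x a') (y b') ≤ e
              | some (true, j, k) => (ball G v R).edist (x a') (w v j) ≤ ((k : ℕ) : ℕ∞)
              | some (false, j, k) => (ball G v R).edist (y b') (w v j) ≤ ((k : ℕ) : ℕ∞))) →
            (ball G v R).edist (x a) (y b) ≤ e → (ball G v R).edist (x a') (y b') ≤ e := by
          intro a b a' b' h h1
          rw [hDD V (ball G v R) s (w v)] at h1 ⊢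
          rcases h1 with h1 | ⟨i, e1, e2, h12, h1, h2⟩
          · exact Or.inl ((h none).1 h1)
          · right
            refine ⟨i, e1, e2, h12, ?_, ?_⟩
            · exact (h (some (true, i, ⟨e1, by omega⟩))).1 h1
            · exact (h (some (false, i, ⟨e2, by omega⟩))).1 h2
        intro a b a' b' h
        exact ⟨key a b a' b' h, key a' b' a b (fun i => (h i).symm)⟩
    have hSC' := hSC A B V ((2 * (1 + s')) ^ m) (max C2 1 * n ^ ε') (fun a => Z (x a))
      (fun b => c (y b)) (fun v a b => (ball G v R).edist (x a) (y b) ≤ e) (by positivity) ?_ ?_ hY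
    · refine hSR.2.2.2 A B _ _ _ ?_ (sp_congr ?_ hSC')
      · have h1 : (2 * (1 + s')) ^ m ≤ (2 * (1 + max C1 1) * n ^ ε') ^ m := by
          apply pow_le_pow_left₀ (by positivity)
          rw [hs']
          nlinarith
        have h2 : (n ^ ε') * (n ^ ε') ^ m = n ^ ε := by
          rw [← Real.rpow_natCast (n ^ ε') m, ← Real.rpow_mul (by linarith),
            ← Real.rpow_add (by linarith)]
          congr 1
          rw [hε']
          field_simp
          ring
        calc max C2 1 * n ^ ε' * (2 * (1 + s')) ^ m
            ≤ max C2 1 * n ^ ε' * (2 * (1 + max C1 1) * n ^ ε') ^ m :=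
              mul_le_mul_of_nonneg_left h1 (by positivity)
          _ = max C2 1 * (2 * (1 + max C1 1)) ^ m * ((n ^ ε') * (n ^ ε') ^ m) := by
              rw [mul_pow]; ring
          _ = max C2 1 * (2 * (1 + max C1 1)) ^ m * n ^ ε := by rw [h2]
      · intro a b
        have h1 : G.edist (c (y b)) (y b) ≤ (E : ℕ) := by
          rw [SimpleGraph.edist_comm]; exact hc (y b) (hyW b)
        have h2 := hBD V G (c (y b)) (x a) (y b) E e R h1 (by omega)
        rw [h2]
        constructor
        · exact fun h => h.2
        · intro h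
          refine ⟨hcZ (x a) (hxW a) (y b) (hyW b) (h.trans ?_), h⟩
          exact_mod_cast he
    · have h1 : (1 : ℝ) ≤ max C2 1 := le_max_right _ _
      nlinarith
    · intro a
      refine (hZ (x a)).trans ?_
      calc C2 * (W.card : ℝ) ^ ε' ≤ max C2 1 * (W.card : ℝ) ^ ε' :=
            mul_le_mul_of_nonneg_right (le_max_left _ _) (by positivity)
        _ ≤ max C2 1 * n ^ ε' :=
            mul_le_mul_of_nonneg_left (Real.rpow_le_rpow (by positivity) hWn hε'0.le)
              (by positivity)

end Pool.Agent.N2.ND
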